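import Pool.Agent.Lib_helper24.K4DH.Mod
import Pool.Agent.Lib_helper86.K4H.F2
import Pool.Agent.Lib_helper24.K4H.L234

/-!
Project K4M, target 2, honest form: the distribution relations `D2` and all Hecke relations for
the classes `ξ(a,b) ∈ H(F)` themselves, from the four cusp relations for the triangulation.
-/

set_option autoImplicit false
set_option linter.unusedSectionVars false

open scoped TensorProduct

namespace Pool.Agent.K4DH

open Finset Pool.Agent.K4ParP Pool.Agent.K4D2 K4M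

section H

variable {F : Type*} [Field F] [CharZero F] [IsAlgClosed F] [DecidableEq F]
  {W : WeierstrassCurve.Affine F}

/-- all distribution relations of the classes -/
theorem dist_H (hW : W.Δ ≠ 0) {t : TP W → TP W → K4M.B2 F} (ht : K4ParP.IsT t)
    (hC : ∀ P a b c d : TP W, K4D2.fT (K4D2.h2_closed hW) P a b c d = K4ParP.CR t P a b c d)
    (hz : ∀ n, ZR1 (A := TP W) t (n + 1 + 1) (n + 1)) :
    Pool.Agent.K4TL.Dist (TF (TP W)) (K4ParP.xi (hkL F) t (gT (W := W))) := by
  obtain ⟨s, hs⟩ := K4Hon.glob_H hW ht hC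
  have h := dist_hon (td_closed hW) hs hz
  rw [K4M.xi_shift] at h
  exact h

end H

end Pool.Agent.K4DH

namespace Pool.Agent.MK4

open scoped TensorProduct
open Finset

section H

variable {F : Type*} [Field F] [CharZero F] [IsAlgClosed F] [DecidableEq F]
  {W : WeierstrassCurve.Affine F}

lemma dist_bot {A V : Type*} [AddCommGroup A] [AddCommGroup V] [Module ℚ V]
    [∀ n : ℕ, Fintype (K4D2.tor A (n + 1))] {e : A → A → V}
    (h : K4TL.Dist (K4D2.TF A) e) :
    K4TL.Dist (K4D2.TF A) (fun a b => (⊥ : Submodule ℚ V).mkQ (e a b)) where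
  sym a b := by rw [h.sym]
  par a b := by rw [h.par, map_neg]
  tri a b := by rw [← map_add, ← map_add, h.tri, map_zero]
  d2 k hk a b := by rw [← h.d2 k hk a b, map_smul, map_sum]

theorem dist2At_of {A V : Type*} [AddCommGroup A] [AddCommGroup V] [Module ℚ V]
    [∀ n : ℕ, Fintype (K4D2.tor A (n + 1))] {e : A → A → V}
    (h : K4TL.Dist (K4D2.TF A) e) (k : ℕ) (hk : 0 < k) : Dist2At k e := by
  intro a b
  have := K4D2.dist2_of (N := (⊥ : Submodule ℚ V)) (dist_bot h) k hk a b
  rw [Submodule.bot_coe, Set.mem_singleton_iff, sub_eq_zero] at this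
  exact this

theorem heckeAt_of {A V : Type*} [AddCommGroup A] [AddCommGroup V] [Module ℚ V]
    [∀ n : ℕ, Fintype (K4D2.tor A (n + 1))] (hT : K4D2.TD A) {e : A → A → V}
    (h : K4TL.Dist (K4D2.TF A) e) (l : ℕ) (hl : l.Prime) : HeckeAt l e := by
  intro a b
  have := K4D2.hecke_of hT (N := (⊥ : Submodule ℚ V)) (dist_bot h) l hl a b
  rw [Submodule.bot_coe, Set.mem_singleton_iff, sub_eq_zero] at this
  exact this

/-- all distribution relations, on the sealed definitions -/
theorem dist_T (hW : W.Δ ≠ 0) {t : To W → To W → B2 F} (ht : Tri cr t)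
    (hz : ∀ n, K4DH.ZR1 (A := K4M.TP W) (B := K4M.B2 F) t (n + 1 + 1) (n + 1)) :
    K4TL.Dist (A := K4M.TP W) (V := HK F) (K4D2.TF (K4M.TP W))
      (fun a b : To W => hk (t a b) (K4M.gT b - K4M.gT a)) :=
  K4DH.dist_H hW ((tri_iff_T hW).mp ht).1 ((tri_iff_T hW).mp ht).2 hz

/-- the distribution relations in one variable, in `H(F)` -/
theorem dist2At_T (hW : W.Δ ≠ 0) {t : To W → To W → B2 F} (ht : Tri cr t)
    (hz : ∀ n, K4DH.ZR1 (A := K4M.TP W) (B := K4M.B2 F) t (n + 1 + 1) (n + 1)) :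
    ∀ k, 0 < k → Dist2At k (fun a b : To W => hk (t a b) (K4M.gT b - K4M.gT a)) :=
  fun k hk => dist2At_of (dist_T hW ht hz) k hk

/-- the Hecke relations, in `H(F)` -/
theorem heckeAt_T (hW : W.Δ ≠ 0) {t : To W → To W → B2 F} (ht : Tri cr t)
    (hz : ∀ n, K4DH.ZR1 (A := K4M.TP W) (B := K4M.B2 F) t (n + 1 + 1) (n + 1)) :
    ∀ l, l.Prime → HeckeAt l (fun a b : To W => hk (t a b) (K4M.gT b - K4M.gT a)) :=
  fun l hl => heckeAt_of (K4D2.td_closed hW) (dist_T hW ht hz) l hl

end H

end Pool.Agent.MK4
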