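import Pool.Agent.Lib_helper24.K4DH.Induct

/-!
Project K4M, target 2: `D2(l)` for all `l` and all pairs from the four cusp relation off
`l κ a = 0`.
-/

set_option autoImplicit false
set_option linter.unusedSectionVars false

namespace Pool.Agent.K4DH

open Finset Pool.Agent.K4ParP Pool.Agent.K4D2

variable {A B G H : Type*} [AddCommGroup A] [AddCommGroup B] [Module ℚ B]
  [AddCommGroup G] [Module ℚ G] [AddCommGroup H] [Module ℚ H]

/-- the four cusp relation of level `κ, l` off `l κ a = 0` -/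
def ZR1 (t : A → A → B) (l κ : ℕ) [Fintype (tor A l)] [Fintype (tor A κ)] : Prop :=
  ∀ a b : A, l • κ • a ≠ 0 → ∑ i : tor A l, ∑ s : tor A κ, t (a + b + i + s) (κ • a - i) +
      ∑ s : tor A κ, t (l • a + b + s) (κ • b) + t (l • κ • a) (κ • b) -
      ∑ i : tor A l, t (κ • a + i) (κ • b) = 0

section ind

variable {t : A → A → B} {m : B →ₗ[ℚ] G →ₗ[ℚ] H} {g : A → G}
  [∀ n : ℕ, Fintype (tor A (n + 1))] {e : ℕ → G}

lemma Glob.loc1 (hT : TD A) (h : Glob t m g e) (n : ℕ) (hz : ZR1 t (n + 1 + 1) (n + 1)) :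
    Loc t m g (n + 1 + 1) (n + 1) (tor A (n + 1 + 1)) (tor A (n + 1)) (e (n + 1)) (e n) where
  isT := h.isT
  even := h.even
  par := h.par
  r4 := h.r4
  hl := rfl
  hκ := Nat.succ_pos n
  tL := fun _ hi => mem_tor.mp hi
  tK := fun _ hi => mem_tor.mp hi
  cL := hT.card (n + 1)
  cK := hT.card n
  dL := h.dg (n + 1)
  dK := h.dg n
  d1L := h.d1 (n + 1)
  d1K := h.d1 n
  tdL := h.td (n + 1)
  tdK := h.td n
  zr := fun a b ha _ => hz a b ha

/-- the induction step -/
lemma D2_step1 (hT : TD A) (h : Glob t m g e) (n : ℕ) (hz : ZR1 t (n + 1 + 1) (n + 1))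
    (d2 : D2P (xi m (t) g) (n + 1) (tor A (n + 1))) :
    D2P (xi m (t) g) (n + 1 + 1) (tor A (n + 1 + 1)) := by
  have loc := h.loc1 hT n hz
  set X : A → A → H := xi m (t) g with hX
  set D : A → A → H := Def X (n + 1 + 1) (tor A (n + 1 + 1)) with hD
  -- a section of multiplication by `l`
  choose sec hsec using hT.div (n + 1)
  choose sek hsek using hT.div n
  set E : A → A → H := fun p r => D p (sec r) with hE
  have EeqD : ∀ p q, E p ((n + 1 + 1) • q) = D p q := by
    intro p q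
    exact Def_congr X (n + 1 + 1) p (by rw [hsec])
  have E0r : ∀ p, E p 0 = 0 := by
    intro p
    have := EeqD p 0
    rw [smul_zero] at this
    rw [this]; exact Def_zero_right h _ p
  have E0l : ∀ r, E 0 r = 0 := fun r => Def_zero_left h _ _
  have Eneg : ∀ p r, E p (-r) = - E p r := by
    intro p r
    have e1 := EeqD p (-(sec r))
    rw [smul_neg, hsec] at e1
    rw [e1]; exact Def_neg h _ p _
  set c1 : ℚ := 2 * ((n + 1 : ℕ) : ℚ) ^ 3 + 6 * ((n + 1 : ℕ) : ℚ) ^ 2 -
    ((n + 2 : ℕ) : ℚ) ^ 2 - 1 with hc1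
  set c2 : ℚ := 2 * ((n + 2 : ℕ) : ℚ) ^ 2 with hc2
  set c3 : ℚ := 2 - ((n + 1 : ℕ) : ℚ) ^ 3 with hc3
  -- the recursion off two lines
  have rec0 : ∀ p r : A, p ≠ 0 → p + r ≠ 0 → c1 • E p r =
      c2 • E p (p + r) + c3 • E (p + r) r -
        (((n + 2 : ℕ) : ℚ) ^ 2 * ((n + 1 : ℕ) : ℚ) ^ 3) • E p p := by
    intro p r hp hpr
    set a := sek (sec p) with ha
    set b := sek (sec r) with hb
    have e1 : (n + 1 + 1) • (n + 1) • a = p := by rw [ha, hsek, hsec]
    have e2 : (n + 1 + 1) • (n + 1) • b = r := by rw [hb, hsek, hsec]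
    have e3 : (n + 1 + 1) • (n + 1) • (a + b) = p + r := by
      rw [smul_add, smul_add, e1, e2]
    have st := star loc d2 a b (by rw [e1]; exact hp) (by rw [e3]; exact hpr)
    rw [e1, e3] at st
    have f1 : Def X (n + 1 + 1) (tor A (n + 1 + 1)) p ((n + 1) • b) = E p r := by
      rw [← e2, EeqD]
    have f2 : Def X (n + 1 + 1) (tor A (n + 1 + 1)) p ((n + 1) • (a + b)) = E p (p + r) := by
      rw [← e3, EeqD]
    have f3 : Def X (n + 1 + 1) (tor A (n + 1 + 1)) (p + r) ((n + 1) • b) = E (p + r) r := by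
      have := EeqD (p + r) ((n + 1) • b)
      rw [e2] at this
      exact this.symm
    have f4 : Def X (n + 1 + 1) (tor A (n + 1 + 1)) p ((n + 1) • a) = E p p := by
      have := EeqD p ((n + 1) • a)
      rw [e1] at this
      exact this.symm
    rw [← hX, f1, f2, f3, f4] at st
    exact st
  have hc3' : c3 ≠ 0 := by
    rw [hc3]
    intro h0
    have h1 : ((n + 1) ^ 3 : ℕ) = 2 := by
      have : (((n + 1) ^ 3 : ℕ) : ℚ) = 2 := by push_cast; push_cast at h0; linarith
      exact_mod_cast this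
    rcases Nat.eq_zero_or_pos n with rfl | hn
    · norm_num at h1
    · have : 2 ^ 3 ≤ (n + 1) ^ 3 := Nat.pow_le_pow_left (by omega) 3
      omega
  have Ediag : ∀ p, E p p = 0 := by
    intro p
    rcases eq_or_ne p 0 with rfl | hp
    · exact E0l 0
    have := rec0 p 0 hp (by rw [add_zero]; exact hp)
    rw [E0r, add_zero, E0r, smul_zero, smul_zero, add_zero, ← sub_smul] at this
    have hne : c2 - ((n + 2 : ℕ) : ℚ) ^ 2 * ((n + 1 : ℕ) : ℚ) ^ 3 ≠ 0 := by
      have : c2 - ((n + 2 : ℕ) : ℚ) ^ 2 * ((n + 1 : ℕ) : ℚ) ^ 3 =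
          ((n + 2 : ℕ) : ℚ) ^ 2 * c3 := by rw [hc2, hc3]; ring
      rw [this]
      exact mul_ne_zero (pow_ne_zero _ (Nat.cast_ne_zero.mpr (by omega))) hc3'
    exact (smul_eq_zero.mp this.symm).resolve_left hne
  have rec1 : ∀ p r : A, c1 • E p r = c2 • E p (p + r) + c3 • E (p + r) r := by
    intro p r
    rcases eq_or_ne p 0 with rfl | hp
    · rw [E0l, E0l, zero_add, Ediag]; simp
    rcases eq_or_ne (p + r) 0 with hpr | hpr
    · rw [hpr, E0r, E0l, eq_neg_of_add_eq_zero_right hpr, Eneg, Ediag]; simp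
    · rw [rec0 p r hp hpr, Ediag]; simp
  -- the sup norm
  have Ezero : ∀ p r, E p r = 0 := by
    intro p r
    rw [← Module.forall_dual_apply_eq_zero_iff ℚ]
    intro φ
    obtain ⟨N1, h1⟩ := hT.tors p
    obtain ⟨N2, h2⟩ := hT.tors r
    set N : ℕ := (N1 + 1) * (N2 + 1) - 1 with hN
    have hN1 : N + 1 = (N1 + 1) * (N2 + 1) := by
      rw [hN]; exact Nat.sub_add_cancel (Nat.mul_pos (Nat.succ_pos _) (Nat.succ_pos _))
    have hp : p ∈ tor A (N + 1) := by
      rw [mem_tor, hN1, mul_comm, mul_smul, h1, smul_zero]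
    have hr : r ∈ tor A (N + 1) := by
      rw [mem_tor, hN1, mul_smul, h2, smul_zero]
    have := sup_zero (T := tor A (N + 1)) (fun x y => φ (E x y)) c1 c2 c3
      (fun x y => by
        have := congrArg φ (rec1 x y)
        simp only [map_add, map_smul, smul_eq_mul] at this
        exact this) (coef n) ⟨p, hp⟩ ⟨r, hr⟩
    exact this
  intro p q
  have := Ezero p ((n + 1 + 1) • q)
  rw [EeqD] at this
  exact sub_eq_zero.mp this

/-- `D2(l)` for all `l ≥ 1` and all pairs. -/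
theorem D2_all1 (hT : TD A) (h : Glob t m g e) (hz : ∀ n, ZR1 t (n + 1 + 1) (n + 1)) :
    ∀ n, D2P (xi m t g) (n + 1) (tor A (n + 1))
  | 0 => D2_one
  | (n + 1) => D2_step1 hT h n (hz n) (D2_all1 hT h hz n)

end ind

end Pool.Agent.K4DH
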