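import Pool.Agent.Lib_helper24.K4DH.Induct2
import Pool.Agent.Lib_helper24.K4D2.ModDec

/-!
Project K4M, target 2, honest form: the distribution relation and the Hecke relation for the
symbols `m (t a b) (g b - g a)` themselves.
-/

set_option autoImplicit false
set_option linter.unusedSectionVars false

namespace Pool.Agent.K4DH

open Finset Pool.Agent.K4ParP Pool.Agent.K4D2

section mod

variable {A B G H : Type*} [AddCommGroup A] [AddCommGroup B] [Module ℚ B]
  [AddCommGroup G] [Module ℚ G] [AddCommGroup H] [Module ℚ H]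
  {t : A → A → B} {m : B →ₗ[ℚ] G →ₗ[ℚ] H} {g : A → G}
  [∀ n : ℕ, Fintype (tor A (n + 1))] {e : ℕ → G}

/-- `D2` -/
theorem d2_hon (hT : TD A) (h : Glob t m g e) (hz : ∀ n, ZR1 t (n + 1 + 1) (n + 1))
    (n : ℕ) (a b : A) :
    ((n + 1 : ℕ) : ℚ) • ∑ i : tor A (n + 1), xi m t g a (b + i) = xi m t g a ((n + 1) • b) := by
  rw [D2_all1 hT h hz n a b, smul_smul, mul_inv_cancel₀ (Nat.cast_ne_zero.mpr (Nat.succ_ne_zero n)),
    one_smul]

/-- the Manin relations -/
theorem manin_hon (h : Glob t m g e) : Pool.Agent.K4Fin.ManinSym (xi m t g) where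
  sym a b := by
    unfold xi
    rw [h.isT.swap a b, map_neg, LinearMap.neg_apply, ← map_neg, neg_sub]
  par a b := h.par a b
  tri a b := by
    have hT' := h.isT
    unfold xi
    have e1 := hT'.rot a b
    have e2 : t (-a - b) a = t a b := by
      have := hT'.rot b (-a - b)
      rw [show -b - (-a - b) = a by abel, e1] at this
      exact this
    rw [e1, e2, ← map_add, ← map_add,
      show (g b - g a + (g (-a - b) - g b) + (g a - g (-a - b))) = 0
        by abel, map_zero]

/-- all relations -/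
theorem dist_hon (hT : TD A) (h : Glob t m g e) (hz : ∀ n, ZR1 t (n + 1 + 1) (n + 1)) :
    Pool.Agent.K4TL.Dist (TF A) (xi m t g) where
  toManinSym := manin_hon h
  d2 k hk a b := by
    obtain ⟨n, rfl⟩ := Nat.exists_eq_succ_of_ne_zero hk.ne'
    rw [Nat.succ_eq_add_one, sum_TF n (fun i => xi m t g a (b + i))]
    exact d2_hon hT h hz n a b

/-- **Hecke relation** for the symbols themselves -/
theorem hecke_hon (hT : TD A) (h : Glob t m g e) (hz : ∀ n, ZR1 t (n + 1 + 1) (n + 1))
    {l : ℕ} (hl : l.Prime) (x y : A) :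
    (l : ℚ) • ∑ C ∈ Pool.Agent.K4TL.subs (TF A) l, ∑ c ∈ Pool.Agent.K4TL.el (TF A) l C,
      ∑ c' ∈ Pool.Agent.K4TL.el (TF A) l C, xi m t g (x + c) (y + c') =
      ∑ M ∈ Pool.Agent.K4TL.XX l,
        xi m t g (M.1 • x + M.2.1 • y) (M.2.2.1 • x + M.2.2.2 • y) := by
  haveI : Fact l.Prime := ⟨hl⟩
  obtain ⟨n, rfl⟩ := Nat.exists_eq_succ_of_ne_zero hl.ne_zero
  exact Pool.Agent.K4TL.hecke (isTors_TF hT) (card_TF hT n) (dist_hon hT h hz) x y

end mod

end Pool.Agent.K4DH
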