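import Pool.Agent.Lib_helper24.K4DH.XiTerms

/-!
Project K4M, target 2: the recursion for the defect of `D2(l)`, given `D2(l-1)`.
-/

set_option autoImplicit false
set_option linter.unusedSectionVars false

namespace Pool.Agent.K4DH

open Finset Pool.Agent.K4ParP Pool.Agent.K4D2

variable {A B G H : Type*} [AddCommGroup A] [AddCommGroup B] [Module ℚ B]
  [AddCommGroup G] [Module ℚ G] [AddCommGroup H] [Module ℚ H]

section star

variable {t : A → A → B} {m : B →ₗ[ℚ] G →ₗ[ℚ] H} {g : A → G} {l κ : ℕ}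
  {L K : AddSubgroup A} [Fintype L] [Fintype K] {eL eK : G}

lemma Loc.tri (h : Loc t m g l κ L K eL eK) (a b : A) :
    xi m (t) g a b = xi m (t) g a (a + b) + xi m (t) g (a + b) b := by
  have hT := h.isT
  have e1 : t b (-a - b) = t a b := hT.rot a b
  have e2 : t (-a - b) a = t a b := by
    have := hT.rot b (-a - b)
    rw [show -b - (-a - b) = a by abel, e1] at this
    exact this
  have h1 : xi m (t) g a b + xi m (t) g b (-a - b) +
      xi m (t) g (-a - b) a = 0 := by
    unfold xi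
    rw [e1, e2, ← map_add, ← map_add]
    rw [show g b - g a + (g (-a - b) - g b) + (g a - g (-a - b)) = 0 by abel, map_zero]
  rw [show -a - b = -(a + b) by abel, h.par b (a + b), h.sym a (-(a + b)), h.par a (a + b)] at h1
  rw [h.sym b (a + b)]
  rw [← sub_eq_zero, ← h1]; abel

lemma t_neg (h : Loc t m g l κ L K eL eK) (p s : A) :
    t p (-s) = - t (p - s) s := by
  have hT := h.isT
  have e1 := hT.even p (-s)
  rw [neg_neg] at e1
  rw [← e1]
  have e2 := hT.swap13 s (-p)
  rw [show -s - -p = p - s by abel] at e2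
  rw [hT.swap (p - s) s, hT.swap s (-p)] at *
  rw [e2]

lemma Ra (h : Loc t m g l κ L K eL eK) (a b : A) (i j : L) (s k : K) :
    m (t (l • a + s) (b + j + k)) (g (κ • a - i)) -
    m (t (l • a + s) (b + j + k)) (g (a + b + i + j + s + k)) +
    m (t (a + b + i + j + s + k) (κ • a - i)) (g (b + j + k) - g (l • a + s)) +
    m (t (a + i + s) (b + j + k)) (g (l • a + s)) -
    m (t (a + i + s) (b + j + k)) (g (κ • a - i)) +
    m (t (a + i + s) (κ • a - i)) (g (a + b + i + j + s + k) - g (b + j + k)) +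
    (1 / 3 : ℚ) • (xi m (t) g (l • a + s) (b + j + k)
      - xi m (t) g (b + j + k) (a + b + i + j + s + k)
      + xi m (t) g (a + b + i + j + s + k) (κ • a - i)
      - xi m (t) g (κ • a - i) (l • a + s)
      + (2 : ℚ) • xi m (t) g (l • a + s) (a + b + i + j + s + k)
      + (2 : ℚ) • xi m (t) g (b + j + k) (κ • a - i)) = 0 := by
  have h1 := h.r4 (a + i + s) (b + j + k) (κ • a - i)
  unfold R4v at h1
  rw [show a + (i : A) + s + (κ • a - i) = l • a + s by rw [h.la]; abel,
    show a + (i : A) + s + (b + j + k) = a + b + i + j + s + k by abel] at h1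
  rw [map_sub (m (t (l • a + s) (b + j + k))),
    map_sub (m (t (a + i + s) (b + j + k)))] at h1
  rw [← h1]; abel

lemma Rb (h : Loc t m g l κ L K eL eK) (a b : A) (j : L) (s k : K) :
    m (t (b + j + k) (l • a + s)) (g (κ • b - j)) -
    m (t (b + j + k) (l • a + s)) (g (l • (a + b) + s + k)) +
    m (t (l • a + b + j + s + k) (κ • b - j)) (g (b + j + k) - g (l • a + s)) +
    m (t (l • b + k) (l • a + s)) (g (b + j + k)) -
    m (t (l • b + k) (l • a + s)) (g (κ • b - j)) -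
    m (t (b + j + k) (κ • b - j)) (g (l • (a + b) + s + k) - g (l • a + s)) +
    (1 / 3 : ℚ) • (xi m (t) g (l • a + s) (b + j + k)
      - xi m (t) g (l • a + s) (l • (a + b) + s + k)
      - xi m (t) g (l • (a + b) + s + k) (κ • b - j)
      + xi m (t) g (κ • b - j) (b + j + k)
      + (2 : ℚ) • xi m (t) g (b + j + k) (l • (a + b) + s + k)
      - (2 : ℚ) • xi m (t) g (l • a + s) (κ • b - j)) = 0 := by
  have h1 := h.r4 (l • b + k) (l • a + s) (-(κ • b - j))
  unfold R4v at h1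
  rw [show l • b + (k : A) + -(κ • b - j) = b + j + k by rw [h.la b]; abel,
    show l • b + (k : A) + (l • a + s) = l • (a + b) + s + k by rw [smul_add]; abel] at h1
  rw [t_neg h (l • (a + b) + s + k) (κ • b - j), t_neg h (l • b + k) (κ • b - j),
    show l • (a + b) + (s : A) + k - (κ • b - j) = l • a + b + j + s + k by
      rw [smul_add, h.la b]; abel,
    show l • b + (k : A) - (κ • b - j) = b + j + k by rw [h.la b]; abel,
    h.even, h.par, h.sym (b + j + k) (-(κ • b - j)), h.par, h.par,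
    h.sym (l • a + s) (b + j + k), h.sym (κ • b - j) (b + j + k)] at h1
  rw [map_sub (m (t (b + j + k) (l • a + s))),
    map_sub (m (t (l • b + k) (l • a + s)))] at h1
  rw [← h1]
  simp only [map_neg, LinearMap.neg_apply, map_sub]
  module

lemma sumRa (h : Loc t m g l κ L K eL eK) (a b : A) :
    (∑ j : L, ∑ i : L, ∑ s : K, ∑ k : K, m (t (l • a + s) (b + j + k)) (g (κ • a - i))) -
    (∑ j : L, ∑ i : L, ∑ s : K, ∑ k : K,
      m (t (l • a + s) (b + j + k)) (g (a + b + i + j + s + k))) +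
    (∑ j : L, ∑ i : L, ∑ s : K, ∑ k : K,
      m (t (a + b + i + j + s + k) (κ • a - i)) (g (b + j + k) - g (l • a + s))) +
    (∑ j : L, ∑ i : L, ∑ s : K, ∑ k : K,
      m (t (a + i + s) (b + j + k)) (g (l • a + s))) -
    (∑ j : L, ∑ i : L, ∑ s : K, ∑ k : K,
      m (t (a + i + s) (b + j + k)) (g (κ • a - i))) +
    (∑ j : L, ∑ i : L, ∑ s : K, ∑ k : K,
      m (t (a + i + s) (κ • a - i)) (g (a + b + i + j + s + k) - g (b + j + k))) +
    (1 / 3 : ℚ) • ((∑ j : L, ∑ i : L, ∑ s : K, ∑ k : K,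
        xi m (t) g (l • a + s) (b + j + k))
      - (∑ j : L, ∑ i : L, ∑ s : K, ∑ k : K,
        xi m (t) g (b + j + k) (a + b + i + j + s + k))
      + (∑ j : L, ∑ i : L, ∑ s : K, ∑ k : K,
        xi m (t) g (a + b + i + j + s + k) (κ • a - i))
      - (∑ j : L, ∑ i : L, ∑ s : K, ∑ k : K, xi m (t) g (κ • a - i) (l • a + s))
      + (2 : ℚ) • (∑ j : L, ∑ i : L, ∑ s : K, ∑ k : K,
        xi m (t) g (l • a + s) (a + b + i + j + s + k))
      + (2 : ℚ) • (∑ j : L, ∑ i : L, ∑ s : K, ∑ k : K,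
        xi m (t) g (b + j + k) (κ • a - i))) = 0 := by
  have h0 : ∑ j : L, ∑ i : L, ∑ s : K, ∑ k : K, (
    m (t (l • a + s) (b + j + k)) (g (κ • a - i)) -
    m (t (l • a + s) (b + j + k)) (g (a + b + i + j + s + k)) +
    m (t (a + b + i + j + s + k) (κ • a - i)) (g (b + j + k) - g (l • a + s)) +
    m (t (a + i + s) (b + j + k)) (g (l • a + s)) -
    m (t (a + i + s) (b + j + k)) (g (κ • a - i)) +
    m (t (a + i + s) (κ • a - i)) (g (a + b + i + j + s + k) - g (b + j + k)) +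
    (1 / 3 : ℚ) • (xi m (t) g (l • a + s) (b + j + k)
      - xi m (t) g (b + j + k) (a + b + i + j + s + k)
      + xi m (t) g (a + b + i + j + s + k) (κ • a - i)
      - xi m (t) g (κ • a - i) (l • a + s)
      + (2 : ℚ) • xi m (t) g (l • a + s) (a + b + i + j + s + k)
      + (2 : ℚ) • xi m (t) g (b + j + k) (κ • a - i))) = 0 :=
    Finset.sum_eq_zero fun j _ => Finset.sum_eq_zero fun i _ => Finset.sum_eq_zero fun s _ =>
      Finset.sum_eq_zero fun k _ => Ra h a b i j s k
  simp only [Finset.sum_add_distrib, Finset.sum_sub_distrib, ← Finset.smul_sum] at h0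
  exact h0

lemma sumRb (h : Loc t m g l κ L K eL eK) (a b : A) :
    (∑ j : L, ∑ _i : L, ∑ s : K, ∑ k : K, m (t (b + j + k) (l • a + s)) (g (κ • b - j))) -
    (∑ j : L, ∑ _i : L, ∑ s : K, ∑ k : K,
      m (t (b + j + k) (l • a + s)) (g (l • (a + b) + s + k))) +
    (∑ j : L, ∑ _i : L, ∑ s : K, ∑ k : K,
      m (t (l • a + b + j + s + k) (κ • b - j)) (g (b + j + k) - g (l • a + s))) +
    (∑ j : L, ∑ _i : L, ∑ s : K, ∑ k : K,
      m (t (l • b + k) (l • a + s)) (g (b + j + k))) -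
    (∑ j : L, ∑ _i : L, ∑ s : K, ∑ k : K,
      m (t (l • b + k) (l • a + s)) (g (κ • b - j))) -
    (∑ j : L, ∑ _i : L, ∑ s : K, ∑ k : K,
      m (t (b + j + k) (κ • b - j)) (g (l • (a + b) + s + k) - g (l • a + s))) +
    (1 / 3 : ℚ) • ((∑ j : L, ∑ _i : L, ∑ s : K, ∑ k : K,
        xi m (t) g (l • a + s) (b + j + k))
      - (∑ j : L, ∑ _i : L, ∑ s : K, ∑ k : K,
        xi m (t) g (l • a + s) (l • (a + b) + s + k))
      - (∑ j : L, ∑ _i : L, ∑ s : K, ∑ k : K,
        xi m (t) g (l • (a + b) + s + k) (κ • b - j))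
      + (∑ j : L, ∑ _i : L, ∑ _s : K, ∑ k : K, xi m (t) g (κ • b - j) (b + j + k))
      + (2 : ℚ) • (∑ j : L, ∑ _i : L, ∑ s : K, ∑ k : K,
        xi m (t) g (b + j + k) (l • (a + b) + s + k))
      - (2 : ℚ) • (∑ j : L, ∑ _i : L, ∑ s : K, ∑ _k : K,
        xi m (t) g (l • a + s) (κ • b - j))) = 0 := by
  have h0 : ∑ j : L, ∑ _i : L, ∑ s : K, ∑ k : K, (
    m (t (b + j + k) (l • a + s)) (g (κ • b - j)) -
    m (t (b + j + k) (l • a + s)) (g (l • (a + b) + s + k)) +
    m (t (l • a + b + j + s + k) (κ • b - j)) (g (b + j + k) - g (l • a + s)) +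
    m (t (l • b + k) (l • a + s)) (g (b + j + k)) -
    m (t (l • b + k) (l • a + s)) (g (κ • b - j)) -
    m (t (b + j + k) (κ • b - j)) (g (l • (a + b) + s + k) - g (l • a + s)) +
    (1 / 3 : ℚ) • (xi m (t) g (l • a + s) (b + j + k)
      - xi m (t) g (l • a + s) (l • (a + b) + s + k)
      - xi m (t) g (l • (a + b) + s + k) (κ • b - j)
      + xi m (t) g (κ • b - j) (b + j + k)
      + (2 : ℚ) • xi m (t) g (b + j + k) (l • (a + b) + s + k)
      - (2 : ℚ) • xi m (t) g (l • a + s) (κ • b - j))) = 0 :=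
    Finset.sum_eq_zero fun j _ => Finset.sum_eq_zero fun i _ => Finset.sum_eq_zero fun s _ =>
      Finset.sum_eq_zero fun k _ => Rb h a b j s k
  simp only [Finset.sum_add_distrib, Finset.sum_sub_distrib, ← Finset.smul_sum] at h0
  exact h0

/-- the contribution of the terms `(T_{1l} ⊗ ·, T_{l01} ⊗ ·)` -/
lemma T_terms (h : Loc t m g l κ L K eL eK) (a b : A) (hA : l • κ • a ≠ 0)
    (hC : l • κ • (a + b) ≠ 0) :
    (∑ j : L, m (∑ i : L, ∑ s : K, t (a + b + i + j + s) (κ • a - i))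
        (∑ k : K, g (b + j + k) - ∑ s : K, g (l • a + s))) +
    (∑ j : L, m (∑ s : K, t (l • a + b + j + s) (κ • b - j))
        (∑ k : K, g (b + j + k) - ∑ s : K, g (l • a + s))) =
    (∑ j : L, ∑ i : L, m (t (κ • a + i) (κ • b + j)) (g (κ • b + j)))
      - m (t (l • κ • a) (l • κ • b)) (g (l • κ • a))
      - ∑ j : L, xi m (t) g (l • κ • a) (κ • b + j) := by
  have hT := h.isT
  have hla : κ • l • a ≠ 0 := by rw [← h.lk]; exact hA
  rw [← Finset.sum_add_distrib]
  have e1 : ∀ j : L, m (∑ i : L, ∑ s : K, t (a + b + i + j + s) (κ • a - i))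
        (∑ k : K, g (b + j + k) - ∑ s : K, g (l • a + s)) +
      m (∑ s : K, t (l • a + b + j + s) (κ • b - j))
        (∑ k : K, g (b + j + k) - ∑ s : K, g (l • a + s)) =
      (∑ i : L, m (t (κ • a + i) (κ • b + -j)) (g (κ • b + -j) - g (l • κ • a)))
        - xi m (t) g (l • κ • a) (κ • b + -j) := by
    intro j
    have hC' : l • κ • (a + (b + (j : A))) ≠ 0 := by
      rw [show a + (b + (j : A)) = (a + b) + j by abel, smul_add κ, smul_add l, h.kL,
        smul_neg, h.tL j j.2, neg_zero, add_zero]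
      exact hC
    have z := zrel h a (b + j) hA hC'
    have e2 : κ • (b + (j : A)) = κ • b + -j := by rw [smul_add, h.kL]
    rw [e2] at z
    have z1 : ∑ i : L, ∑ s : K, t (a + b + i + j + s) (κ • a - i) =
        ∑ i : L, ∑ s : K, t (a + (b + j) + i + s) (κ • a - i) := by
      refine Finset.sum_congr rfl fun i _ => Finset.sum_congr rfl fun s _ => ?_
      congr 1; abel
    have z2 : ∑ s : K, t (l • a + b + j + s) (κ • b - j) =
        ∑ s : K, t (l • a + (b + j) + s) (κ • b + -j) := by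
      refine Finset.sum_congr rfl fun s _ => ?_
      congr 1 <;> abel
    rw [← LinearMap.add_apply, ← map_add, z1, z2]
    have z3 : ∑ i : L, ∑ s : K, t (a + (b + j) + i + s) (κ • a - i) +
        ∑ s : K, t (l • a + (b + j) + s) (κ • b + -j) =
        ∑ i : L, t (κ • a + i) (κ • b + -j) - t (l • κ • a) (κ • b + -j) := by
      rw [← sub_eq_zero, ← z]; abel
    rw [z3, h.dK.ne hla, ← h.lk, h.dK, e2]
    by_cases h0 : κ • b + -(j : A) = 0
    · have : xi m (t) g (l • κ • a) 0 = 0 := by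
        unfold xi; rw [t0r h.isT, map_zero, LinearMap.zero_apply]
      rw [h0, this]
      simp only [t0r h.isT, Finset.sum_const_zero, map_zero, LinearMap.zero_apply,
        sub_zero]
    · rw [if_neg h0, add_zero]
      unfold xi
      simp only [map_sub, LinearMap.sub_apply, map_sum, LinearMap.sum_apply,
        Finset.sum_sub_distrib]
      abel
  rw [Finset.sum_congr rfl fun j _ => e1 j]
  rw [Finset.sum_sub_distrib, s_neg L (fun j => xi m (t) g (l • κ • a) (κ • b + j)),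
    s_neg L (fun j => ∑ i : L, m (t (κ • a + i) (κ • b + j)) (g (κ • b + j) - g (l • κ • a)))]
  congr 1
  simp only [map_sub, Finset.sum_sub_distrib]
  congr 1
  have e5 : ∑ j : L, ∑ i : L, m (t (κ • a + i) (κ • b + j)) (g (l • κ • a)) =
      m (∑ i : L, ∑ j : L, t (κ • a + i) (κ • b + j)) (g (l • κ • a)) := by
    rw [Finset.sum_comm]
    simp only [map_sum, LinearMap.sum_apply]
  rw [e5, dtL h]

/-- The recursion for the defect of `D2(l)`, given `D2(l-1)`. -/
theorem star (h : Loc t m g l κ L K eL eK) (d2 : D2P (xi m (t) g) κ K) (a b : A)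
    (hA : l • κ • a ≠ 0) (hC : l • κ • (a + b) ≠ 0) :
    (2 * (κ : ℚ) ^ 3 + 6 * (κ : ℚ) ^ 2 - (l : ℚ) ^ 2 - 1) •
        Def (xi m (t) g) l L (l • κ • a) (κ • b) =
      (2 * (l : ℚ) ^ 2) • Def (xi m (t) g) l L (l • κ • a) (κ • (a + b)) +
      (2 - (κ : ℚ) ^ 3) • Def (xi m (t) g) l L (l • κ • (a + b)) (κ • b) -
      ((l : ℚ) ^ 2 * (κ : ℚ) ^ 3) • Def (xi m (t) g) l L (l • κ • a) (κ • a) := by
  have hT := h.isT
  have hla : κ • l • a ≠ 0 := by rw [← h.lk]; exact hA
  have hlc : κ • l • (a + b) ≠ 0 := by rw [← h.lk]; exact hC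
  have ra := sumRa h a b
  have rb := sumRb h a b
  -- product terms
  rw [termM1 h (l • a) b (κ • a), termM2 h (l • a) b (a + b) hlc,
    termM3 (a + b) b (l • a) (κ • a), termM4a h a b (l • a), termM4b h a b,
    termM5 h a b (a + b) hA, h.dL.ne hA, ← h.lk,
    xiE1 h (l • a) b, xiE2 h b (a + b), xiE3 h d2 (a + b) a, xiE4 h d2 a (l • a),
    xiE5 h (l • a) (a + b), xiE6 h d2 b a] at ra
  rw [termQ1b h (l • a) b, termQ1a h (l • a) b (l • (a + b)),
    termQ2 h (l • a + b) b (l • a) (κ • b), termQ3a h b (l • a),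
    termQ3b h (l • b) (l • a) (κ • b) (h.lk b),
    termQ4 h b (l • (a + b)) (l • a)
      (fun h0 => by rw [← h.lk, ← h.lk, smul_add κ, smul_add l, h0, add_zero]) hlc hla,
    xiE1 h (l • a) b, xiE8 h (l • a) (l • (a + b)), xiE9 h d2 (l • (a + b)) b,
    xiE10 h d2 b, xiE11 h b (l • (a + b)), xiE12 h d2 (l • a) b] at rb
  have tt0 := T_terms h a b hA hC
  simp only [← h.lk] at ra rb
  have s1 : ∑ j : L, xi m (t) g (l • κ • a) (κ • b + j) =
      (∑ j : L, m (t (l • κ • a) (κ • b + j)) (g (κ • b + j))) -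
      ∑ j : L, m (t (l • κ • a) (κ • b + j)) (g (l • κ • a)) := by
    unfold xi
    simp only [map_sub, Finset.sum_sub_distrib]
  have s2 : (∑ s : K, ∑ k : K, m (t (l • a + s) (l • b + k)) (g (l • a + s))) +
      (∑ s : K, ∑ k : K, m (t (l • b + k) (l • a + s)) (g (l • b + k))) =
      -(((κ : ℚ) ^ 2)⁻¹ • xi m (t) g (l • κ • a) (l • κ • b)) := by
    rw [h.lk a, h.lk b, ← h.d1K]
    simp only [← Finset.sum_neg_distrib, ← Finset.sum_add_distrib]
    refine Finset.sum_congr rfl fun s _ => Finset.sum_congr rfl fun k _ => ?_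
    unfold xi
    rw [hT.swap (l • a + s) (l • b + k), map_neg, LinearMap.neg_apply, map_sub]
    abel
  have s3 : (∑ j : L, ∑ i : L, m (t (κ • a + i) (κ • b + j)) (g (κ • b + j))) -
      (∑ j : L, ∑ i : L, m (t (κ • a + i) (κ • b + j)) (g (κ • a + i))) =
      ((l : ℚ) ^ 2)⁻¹ • xi m (t) g (l • κ • a) (l • κ • b) := by
    rw [← h.d1L, Finset.sum_comm (s := (univ : Finset L)) (t := (univ : Finset L))
      (f := fun i j => xi m (t) g (κ • a + (i : A)) (κ • b + (j : A)))]
    unfold xi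
    simp only [map_sub, Finset.sum_sub_distrib]
  have s4 : xi m (t) g (l • κ • a) (l • κ • b) =
      - m (t (l • κ • b) (l • κ • a)) (g (l • κ • b)) -
      m (t (l • κ • a) (l • κ • b)) (g (l • κ • a)) := by
    unfold xi
    rw [hT.swap (l • κ • a) (l • κ • b), map_neg, LinearMap.neg_apply, map_sub, neg_neg]
  have tr : xi m (t) g (l • κ • a) (l • κ • b) =
      xi m (t) g (l • κ • a) (l • κ • (a + b)) +
      xi m (t) g (l • κ • (a + b)) (l • κ • b) := by
    have := h.tri (l • κ • a) (l • κ • b)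
    rw [show l • κ • a + l • κ • b = l • κ • (a + b) by rw [smul_add, smul_add]] at this
    exact this
  have sy := h.sym (l • κ • (a + b)) (l • κ • b)
  have se := h.self (l • κ • a)
  unfold Def
  generalize (∑ j : L, m (t (l • κ • a) (κ • b + j)) (g (κ • b + j))) = P1g at *
  generalize (∑ j : L, m (t (l • κ • a) (κ • b + j)) (g (l • κ • a))) = P1 at *
  generalize (∑ s : K, ∑ k : K, m (t (l • a + s) (l • b + k)) (g (l • a + s))) = R4 at *
  generalize (∑ s : K, ∑ k : K, m (t (l • b + k) (l • a + s)) (g (l • b + k))) = R4' at *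
  generalize (∑ j : L, ∑ i : L, m (t (κ • a + i) (κ • b + j)) (g (κ • b + j))) = P5g at *
  generalize (∑ j : L, ∑ i : L, m (t (κ • a + i) (κ • b + j)) (g (κ • a + i))) = P5 at *
  generalize m (t (l • κ • b) (l • κ • a)) (g (l • κ • b)) = Z1 at *
  generalize m (t (l • κ • a) (l • κ • b)) (g (l • κ • a)) = Z2 at *
  generalize (∑ j : L, ∑ h : K, ∑ k : K,
    m (t (l • a + h) (b + j + k)) (g (l • (a + b) + h + k))) = N at *
  generalize (∑ j : L, m (∑ i : L, ∑ s : K, t (a + b + i + j + s) (κ • a - i))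
        (∑ k : K, g (b + j + k) - ∑ s : K, g (l • a + s))) = M3 at *
  generalize (∑ j : L, m (∑ s : K, t (l • a + b + j + s) (κ • b - j))
        (∑ k : K, g (b + j + k) - ∑ s : K, g (l • a + s))) = Q2 at *
  generalize (∑ j : L, xi m (t) g (l • κ • a) (κ • b + j)) = WAy at *
  generalize (∑ j : L, xi m (t) g (l • κ • a) (κ • a + j)) = WAx at *
  generalize (∑ j : L, xi m (t) g (l • κ • a) (κ • (a + b) + j)) = WAc at *
  generalize (∑ j : L, xi m (t) g (l • κ • (a + b)) (κ • b + j)) = WCy at *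
  generalize xi m (t) g (l • κ • a) (l • κ • b) = XAB at *
  generalize xi m (t) g (l • κ • a) (l • κ • (a + b)) = XAC at *
  generalize xi m (t) g (l • κ • (a + b)) (l • κ • b) = XCB at *
  generalize xi m (t) g (l • κ • b) (l • κ • (a + b)) = XBC at *
  generalize xi m (t) g (l • κ • a) (l • κ • a) = XAA at *
  have hk := h.k0
  have hl := h.l0
  have hlk : (l : ℚ) = κ + 1 := by rw [h.hl]; push_cast; ring
  have e1 : P1g = WAy + P1 := by rw [s1]; abel
  have e2 : R4' = -(((κ : ℚ) ^ 2)⁻¹ • XAB) - R4 := by rw [← s2]; abel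
  have e3 : P5g = P5 + ((l : ℚ) ^ 2)⁻¹ • XAB := by rw [← s3]; abel
  have e4 : Z1 = -XAB - Z2 := by rw [s4]; abel
  have e5 : M3 = P5g - Z2 - WAy - Q2 := by rw [← tt0]; abel
  rw [e5, e3, tr, sy] at ra
  rw [e1, e2, e4, tr] at rb
  rw [se, tr]
  have hk1 : (κ : ℚ) + 1 ≠ 0 := by rw [← hlk]; exact hl
  rw [hlk] at ra rb ⊢
  linear_combination (norm := skip) (-3 * (κ : ℚ) ^ 2 : ℚ) • ra +
    (-3 * (κ : ℚ) ^ 2 / ((κ : ℚ) + 1) ^ 2 : ℚ) • rb
  match_scalars <;> field_simp <;> ring

end star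

end Pool.Agent.K4DH
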