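import Pool.Agent.Lib_helper24.K4DH.Terms

/-!
Project K4M, target 2: the remaining product terms, the rank one relation, the four cusp relation.
-/

set_option autoImplicit false
set_option linter.unusedSectionVars false

namespace Pool.Agent.K4DH

open Finset Pool.Agent.K4ParP Pool.Agent.K4D2

variable {A B G H : Type*} [AddCommGroup A] [AddCommGroup B] [Module ℚ B]
  [AddCommGroup G] [Module ℚ G] [AddCommGroup H] [Module ℚ H]

section terms

variable {t : A → A → B} {m : B →ₗ[ℚ] G →ₗ[ℚ] H} {g : A → G} {l κ : ℕ}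
  {L K : AddSubgroup A} [Fintype L] [Fintype K] {eL eK : G}

/-- Q3a -/
lemma termQ3a (h : Loc t m g l κ L K eL eK) (b u : A) :
    ∑ j : L, ∑ _i : L, ∑ h : K, ∑ k : K, m (t (l • b + k) (u + h)) (g (b + j + k)) =
      (l : ℚ) ^ 2 • ∑ h : K, ∑ k : K, m (t (l • b + k) (u + h)) (g (l • b + k)) := by
  rw [Finset.sum_comm]
  simp only [Finset.sum_const, Finset.card_univ, h.cL]
  rw [← Nat.cast_smul_eq_nsmul ℚ, Nat.cast_pow]
  congr 1
  rw [Finset.sum_comm]
  refine Finset.sum_congr rfl fun h' _ => ?_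
  rw [Finset.sum_comm]
  refine Finset.sum_congr rfl fun k _ => ?_
  rw [← map_sum]
  have e : l • (b + k) = l • b + k := by rw [smul_add, h.lK]
  have e1 : ∑ j : L, g (b + j + k) = ∑ j : L, g (b + k + j) := by
    refine Finset.sum_congr rfl fun j _ => ?_
    congr 1; abel
  rw [e1, h.dL, e]
  by_cases h0 : l • b + (k : A) = 0
  · rw [h0, t0l h.isT]; simp
  · rw [if_neg h0, add_zero]

/-- Q3b -/
lemma termQ3b (h : Loc t m g l κ L K eL eK) (p q y : A) (hy : l • y = κ • p) :
    ∑ j : L, ∑ _i : L, ∑ h : K, ∑ k : K, m (t (p + k) (q + h)) (g (y - j)) =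
      (l : ℚ) ^ 2 • m (t (κ • p) (κ • q)) (g (κ • p)) := by
  rw [Finset.sum_comm]
  simp only [Finset.sum_const, Finset.card_univ, h.cL]
  rw [← Nat.cast_smul_eq_nsmul ℚ, Nat.cast_pow]
  congr 1
  simp only [sum_m_left, dtK' h]
  rw [← map_sum, h.dL.sub, h.dL, hy]
  by_cases h0 : κ • p = 0
  · rw [h0, t0l h.isT]; simp
  · rw [if_neg h0, add_zero]

/-- rank one: `RO` -/
lemma rank_one (h : Loc t m g l κ L K eL eK) (a : A) (ha : l • κ • a ≠ 0) :
    ∑ i : L, ∑ s : K, t (a + i + s) (κ • a - i) = 0 := by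
  have z := h.zr a 0 ha (by rw [add_zero]; exact ha)
  simp only [add_zero, smul_zero, t0r h.isT, Finset.sum_const_zero, sub_zero] at z
  exact z

/-- M5 -/
lemma termM5 (h : Loc t m g l κ L K eL eK) (a b c : A) (ha : l • κ • a ≠ 0) :
    ∑ j : L, ∑ i : L, ∑ h : K, ∑ k : K, m (t (a + i + h) (κ • a - i))
        (g (c + i + j + h + k) - g (b + j + k)) = 0 := by
  set Γ : A → G := fun c => ∑ j : L, ∑ k : K, g (c + j + k) with hΓ
  have sh : ∀ (c : A) (i : L) (h' : K), ∑ j : L, ∑ k : K, g (c + i + j + h' + k) = Γ c := by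
    intro c i h'
    rw [hΓ]
    simp only
    rw [← s_shift L (fun j => ∑ k : K, g (c + j + k)) i.2]
    refine Finset.sum_congr rfl fun j _ => ?_
    rw [← s_shift K (fun k => g (c + (j + i) + k)) h'.2]
    refine Finset.sum_congr rfl fun k _ => ?_
    congr 1; abel
  have e1 : ∑ j : L, ∑ i : L, ∑ h : K, ∑ k : K, m (t (a + i + h) (κ • a - i))
        (g (c + i + j + h + k) - g (b + j + k)) =
      ∑ i : L, ∑ h : K, m (t (a + i + h) (κ • a - i)) (Γ c - Γ b) := by
    rw [Finset.sum_comm]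
    refine Finset.sum_congr rfl fun i _ => ?_
    rw [Finset.sum_comm]
    refine Finset.sum_congr rfl fun h' _ => ?_
    rw [← sh c i h', hΓ]
    simp only [map_sub, map_sum, Finset.sum_sub_distrib]
  rw [e1]
  have e2 : ∑ i : L, ∑ h : K, m (t (a + i + h) (κ • a - i)) (Γ c - Γ b) =
      m (∑ i : L, ∑ h : K, t (a + i + h) (κ • a - i)) (Γ c - Γ b) := by
    simp only [map_sum, LinearMap.sum_apply]
  rw [e2, rank_one h a ha, map_zero, LinearMap.zero_apply]

/-- Q4 -/
lemma termQ4 (h : Loc t m g l κ L K eL eK) (b s u : A)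
    (hsu : l • κ • b = 0 → κ • s = κ • u) (hs : κ • s ≠ 0) (hu : κ • u ≠ 0) :
    ∑ j : L, ∑ _i : L, ∑ h : K, ∑ k : K, m (t (b + j + k) (κ • b - j))
        (g (s + h + k) - g (u + h)) = 0 := by
  have e0 : ∀ k : K, ∑ h : K, (g (s + h + k) - g (u + h)) = g (κ • s) - g (κ • u) := by
    intro k
    rw [Finset.sum_sub_distrib, h.dK.ne hu]
    congr 1
    rw [← h.dK.ne hs, ← s_shift K (fun h' => g (s + h')) k.2]
    refine Finset.sum_congr rfl fun h' _ => ?_
    congr 1; abel
  have e1 : ∑ j : L, ∑ _i : L, ∑ h : K, ∑ k : K, m (t (b + j + k) (κ • b - j))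
        (g (s + h + k) - g (u + h)) =
      ((l ^ 2 : ℕ) : ℚ) • m (∑ j : L, ∑ k : K, t (b + j + k) (κ • b - j))
        (g (κ • s) - g (κ • u)) := by
    simp only [Finset.sum_const, Finset.card_univ, h.cL]
    rw [← Finset.smul_sum, ← Nat.cast_smul_eq_nsmul ℚ]
    congr 1
    simp only [map_sum, LinearMap.sum_apply]
    refine Finset.sum_congr rfl fun j _ => ?_
    rw [Finset.sum_comm]
    refine Finset.sum_congr rfl fun k _ => ?_
    rw [← map_sum, e0 k]
  rw [e1]
  by_cases hb : l • κ • b = 0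
  · rw [hsu hb, sub_self, map_zero, smul_zero]
  · rw [rank_one h b hb, map_zero, LinearMap.zero_apply, smul_zero]

/-- the four cusp relation -/
lemma zrel (h : Loc t m g l κ L K eL eK) (a b : A) (hA : l • κ • a ≠ 0)
    (hC : l • κ • (a + b) ≠ 0) :
    ∑ i : L, ∑ s : K, t (a + b + i + s) (κ • a - i) +
      ∑ s : K, t (l • a + b + s) (κ • b) + t (l • κ • a) (κ • b) -
      ∑ i : L, t (κ • a + i) (κ • b) = 0 := h.zr a b hA hC

end terms

end Pool.Agent.K4DH
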