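import Pool.Agent.Lib_helper24.K4DH.Induct2

/-!
Project K4M: the symmetric form of the four cusp relation.
-/

set_option autoImplicit false
set_option linter.unusedSectionVars false

namespace Pool.Agent.K4DH

open Finset Pool.Agent.K4ParP Pool.Agent.K4D2

variable {A B : Type*} [AddCommGroup A] [AddCommGroup B] [Module ℚ B]

/-- the four cusp sum with slopes `(l,1,k)`, `b = -k w` -/
def Zs (t : A → A → B) (l κ : ℕ) [Fintype (tor A l)] [Fintype (tor A κ)] (w c : A) : B :=
  ∑ a : tor A l, t (a + κ • w) (-(κ • w) - c) +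
    ∑ h : tor A κ, t (-(κ • w) - w - h) (w + h - c) +
    ∑ h : tor A κ, ∑ a : tor A l, t (w + h - a) (a - c) + t (l • c) (-(κ • w) - c)

/-- `Z` and the relation `ZR` -/
theorem Zs_eq {t : A → A → B} (ht : IsT t) {l κ : ℕ} [Fintype (tor A l)] [Fintype (tor A κ)]
    (hl : l = κ + 1) (a b : A) :
    ∑ i : tor A l, ∑ s : tor A κ, t (a + b + i + s) (κ • a - i) +
      ∑ s : tor A κ, t (l • a + b + s) (κ • b) + t (l • κ • a) (κ • b) -
      ∑ i : tor A l, t (κ • a + i) (κ • b) = Zs t l κ (a + b) (-(κ • a)) := by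
  unfold Zs
  have rot' : ∀ x y z : A, x + y + z = 0 → t x y = t y z := by
    intro x y z h
    have : z = -x - y := by
      rw [eq_sub_iff_add_eq, eq_neg_iff_add_eq_zero, ← h]; abel
    rw [this, ht.rot]
  have e1 : ∑ i : tor A l, ∑ s : tor A κ, t (a + b + i + s) (κ • a - i) =
      ∑ h : tor A κ, ∑ i : tor A l, t (a + b + h - i) (i - -(κ • a)) := by
    rw [Finset.sum_comm]
    refine Finset.sum_congr rfl fun h _ => ?_
    rw [← s_neg (tor A l) (fun i => t (a + b + h - i) (i - -(κ • a)))]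
    refine Finset.sum_congr rfl fun i _ => ?_
    congr 1 <;> abel
  have e2 : ∑ s : tor A κ, t (l • a + b + s) (κ • b) =
      ∑ h : tor A κ, t (-(κ • (a + b)) - (a + b) - h) (a + b + h - -(κ • a)) := by
    refine Finset.sum_congr rfl fun h _ => ?_
    rw [rot' (-(κ • (a + b)) - (a + b) - h) (a + b + h - -(κ • a)) (κ • b) (by
      rw [smul_add]; abel)]
    congr 1
    rw [hl, add_smul, one_smul]; abel
  have e3 : t (l • κ • a) (κ • b) = t (l • -(κ • a)) (-(κ • (a + b)) - -(κ • a)) := by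
    rw [← ht.even (l • κ • a) (κ • b)]
    congr 1
    · rw [smul_neg]
    · rw [smul_add]; abel
  have e4 : ∑ i : tor A l, t (κ • a + i) (κ • b) =
      -∑ i : tor A l, t (i + κ • (a + b)) (-(κ • (a + b)) - -(κ • a)) := by
    rw [← Finset.sum_neg_distrib]
    refine Finset.sum_congr rfl fun i _ => ?_
    rw [rot' ((i : A) + κ • (a + b)) (-(κ • (a + b)) - -(κ • a)) (-(κ • a + i)) (by abel)]
    have h1 : -(κ • (a + b)) - -(κ • a) = -(κ • b) := by rw [smul_add]; abel
    rw [h1, ht.even, ht.swap]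
  rw [e1, e2, e3, e4, sub_neg_eq_add]
  abel

/-- the relation `ZR1` from the vanishing of `Z` -/
theorem ZR1_of_Zs {t : A → A → B} (ht : IsT t) {l κ : ℕ} [Fintype (tor A l)]
    [Fintype (tor A κ)] (hl : l = κ + 1) (h : ∀ w c : A, l • c ≠ 0 → Zs t l κ w c = 0) :
    ZR1 t l κ := by
  intro a b ha
  rw [Zs_eq ht hl a b, h]
  rw [smul_neg]
  exact neg_ne_zero.mpr ha

end Pool.Agent.K4DH
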