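import Pool.Agent.Lib_helper24.K4DH.ZForm

/-!
Project K4M: the symmetric form of the four cusp relation, with solution sets.
-/

set_option autoImplicit false
set_option linter.unusedSectionVars false

namespace Pool.Agent.K4DH

open Finset Pool.Agent.K4ParP Pool.Agent.K4D2

variable {A B : Type*} [AddCommGroup A] [AddCommGroup B] [Module ℚ B]

lemma sum_sol_zero {V : Type*} [AddCommMonoid V] {l : ℕ} [Fintype (tor A l)] {S : Finset A}
    (hS : ∀ a, a ∈ S ↔ l • a = 0) (f : A → V) : ∑ a ∈ S, f a = ∑ a : tor A l, f a := by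
  have h : S = (univ : Finset (tor A l)).map (Function.Embedding.subtype _) := by
    ext a
    rw [hS, mem_map]
    constructor
    · intro ha
      exact ⟨⟨a, mem_tor.mpr ha⟩, mem_univ _, rfl⟩
    · rintro ⟨⟨x, hx⟩, -, rfl⟩
      exact mem_tor.mp hx
  rw [h, sum_map]
  rfl

lemma sum_sol {V : Type*} [AddCommMonoid V] {κ : ℕ} [Fintype (tor A κ)] {S : Finset A}
    {b w : A} (hS : ∀ a, a ∈ S ↔ κ • a = b) (hw : κ • w = b) (f : A → V) :
    ∑ a ∈ S, f a = ∑ h : tor A κ, f (w + h) := by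
  classical
  have h1 : S = ((univ : Finset (tor A κ)).map (Function.Embedding.subtype _)).map
      (addLeftEmbedding w) := by
    ext a
    rw [hS, mem_map]
    constructor
    · intro ha
      refine ⟨a - w, ?_, ?_⟩
      · rw [mem_map]
        exact ⟨⟨a - w, mem_tor.mpr (by rw [smul_sub, ha, hw, sub_self])⟩, mem_univ _, rfl⟩
      · show w + (a - w) = a
        abel
    · rintro ⟨x, hx, rfl⟩
      rw [mem_map] at hx
      obtain ⟨⟨y, hy⟩, -, rfl⟩ := hx
      show κ • (w + y) = b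
      rw [smul_add, hw, mem_tor.mp hy, add_zero]
  rw [h1, sum_map, sum_map]
  rfl

/-- `Z` with solution sets -/
theorem Zs_eq_sol {t : A → A → B} {l κ : ℕ} [Fintype (tor A l)] [Fintype (tor A κ)]
    {S U : Finset A} {b w c : A} (hS : ∀ a, a ∈ S ↔ l • a = 0) (hU : ∀ a, a ∈ U ↔ κ • a = -b)
    (hw : κ • w = -b) :
    ∑ a ∈ S, t (a - b) (b - c) + ∑ x ∈ U, t (b - x) (x - c) +
      ∑ x ∈ U, ∑ a ∈ S, t (x - a) (a - c) + t (l • c) (b - c) = Zs t l κ w c := by
  unfold Zs
  have hb : b = -(κ • w) := by rw [hw, neg_neg]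
  rw [sum_sol_zero hS (fun a => t (a - b) (b - c)), sum_sol hU hw (fun x => t (b - x) (x - c)),
    sum_sol hU hw (fun x => ∑ a ∈ S, t (x - a) (a - c))]
  congr 1
  · congr 1
    · congr 1
      · refine Finset.sum_congr rfl fun a _ => ?_
        rw [hb, sub_neg_eq_add]
      · refine Finset.sum_congr rfl fun a _ => ?_
        rw [hb]
        congr 1
        abel
    · refine Finset.sum_congr rfl fun h _ => ?_
      rw [sum_sol_zero hS (fun a => t (w + h - a) (a - c))]
  · rw [hb]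

/-- the relation `ZR1` from the vanishing of `Z` with solution sets -/
theorem ZR1_of_sol {t : A → A → B} (ht : IsT t) {l κ : ℕ} [Fintype (tor A l)]
    [Fintype (tor A κ)] (hl : l = κ + 1) (S : Finset A) (hS : ∀ a, a ∈ S ↔ l • a = 0)
    (U : A → Finset A) (hU : ∀ b a, a ∈ U b ↔ κ • a = b)
    (h : ∀ b c : A, l • c ≠ 0 → ∑ a ∈ S, t (a - b) (b - c) + ∑ x ∈ U (-b), t (b - x) (x - c) +
      ∑ x ∈ U (-b), ∑ a ∈ S, t (x - a) (a - c) + t (l • c) (b - c) = 0) :
    ZR1 t l κ := by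
  refine ZR1_of_Zs ht hl fun w c hc => ?_
  rw [← Zs_eq_sol hS (hU (-(-(κ • w)))) (by rw [neg_neg]) (b := -(κ • w)), h _ _ hc]

end Pool.Agent.K4DH
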